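import Mathlib
import Pool.Agent.H295R3.W.Stmts

set_option autoImplicit false

open Finset ArithmeticFunction

namespace Pool.Agent.H295R3.W

lemma f_two_mul (m : ℕ) (hm : 1 ≤ m) : f (2 * m) = -2 * f m := by
  unfold f
  rw [cardFactors_mul (by norm_num) (by omega), cardFactors_apply_prime Nat.prime_two, pow_add,
    pow_one]

lemma S_rec (x : ℝ) : S x = T x + (-2) * S (x / 2) := by
  unfold S T
  have hfl : ⌊x / 2⌋₊ = ⌊x⌋₊ / 2 := by
    exact Nat.floor_div_ofNat x 2
  rw [hfl]
  set N := ⌊x⌋₊
  rw [← Finset.sum_filter_add_sum_filter_not (Icc 1 N) (fun n => n % 2 = 1)]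
  congr 1
  rw [Finset.mul_sum]
  refine (Finset.sum_bij (fun m _ => 2 * m) ?_ ?_ ?_ ?_).symm
  · intro m hm
    rw [mem_Icc] at hm
    rw [mem_filter, mem_Icc]
    omega
  · intro m _ m' _ h
    omega
  · intro n hn
    rw [mem_filter, mem_Icc] at hn
    refine ⟨n / 2, ?_, ?_⟩
    · rw [mem_Icc]; omega
    · omega
  · intro m hm
    rw [mem_Icc] at hm
    exact (f_two_mul m hm.1).symm

theorem taskS : TaskS := by
  intro K
  induction K with
  | zero =>
    intro x h0 hx
    have h1 : x < 2 := by simpa using hx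
    simp only [zero_add, range_one, sum_singleton, pow_zero, one_mul, div_one]
    unfold S T
    have h2 : ⌊x⌋₊ < 2 := (Nat.floor_lt h0).2 (by exact_mod_cast h1)
    rw [Finset.filter_true_of_mem]
    intro n hn
    rw [mem_Icc] at hn
    omega
  | succ K ih =>
    intro x h0 hx
    have h1 : x / 2 < 2 ^ (K + 1) := by
      rw [div_lt_iff₀ (by norm_num)]
      calc x < 2 ^ (K + 1 + 1) := hx
        _ = 2 ^ (K + 1) * 2 := pow_succ _ _
    rw [S_rec, ih (x / 2) (by positivity) h1, Finset.sum_range_succ' _ (K + 1), pow_zero, one_mul,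
      pow_zero, div_one, add_comm, Finset.mul_sum]
    congr 1
    refine Finset.sum_congr rfl fun k _ => ?_
    have e : x / 2 / 2 ^ k = x / 2 ^ (k + 1) := by
      rw [div_div, pow_succ, mul_comm]
    rw [e]
    ring

end Pool.Agent.H295R3.W
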